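import Mathlib
import Pool.Agent.H423.AB.TAmp

/-!
# `T(a, b, c)` is bounded if the number of the `a` with `T(a, c - a, c) ≥ t` is bounded

For an abc-triple let `T(a, b, c) = log (c / rad (abc)) / √(log c)`. Q1 asks whether `T < 1` for all
large triples. Fix `N ≥ 1` and `δ₀ > 0` and let `n_t(c)` be the number of the `a` for which `(a, c - a, c)` is an
abc-triple with `T(a, c - a, c) ≥ t`, `N ∣ a` and `a ≤ δ₀ c`.

(1) There is `κ` such that for all `t > 0` and `B ≥ 0`: if `n_t(c) ≤ B` for all large `c`, then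
`T(a, b, c) < κ t (1 + B ^ (1 / (2 s)))` for ALL abc-triples with large `c`.

(2) A criterion for Q1 (`τ = 1`): there is `κ > 0` such that, if `n_t(c) ≤ κ (τ / t) ^ (2 s)` for all large `c`, for
one `t ≤ κ τ`, then `T < τ` for all abc-triples with large `c`.

(3) `T` is bounded if and only if for some `t` the numbers `n_t(c)` are bounded.

Here `s` is any positive number with `∑ 3 ≤ m ≤ M, (m - 2) m ^ (-s) > 1` for some `M`, for instance
`s = 12 / 5`. So if `T` is unbounded, for instance if the abc conjecture is false, then for every `t` there are `c`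
with arbitrarily many representations with `T ≥ t` near the cusp.
-/

namespace Pool.Agent.Results.MP_4ab349_nt.BoundedMultiplicity

open Pool.Agent.H423.AB

/-- the statements (1) and (2) for the exponent `s` -/
def Statement (s : ℝ) (N : ℕ) (δ₀ : ℝ) : Prop :=
  (∃ κ : ℝ, 0 < κ ∧ ∀ t B : ℝ, 0 < t → 0 ≤ B → Few N δ₀ t B →
    EvBound (κ * t * (1 + B ^ (1 / (2 * s))))) ∧
  ∃ κ : ℝ, 0 < κ ∧ ∀ t τ : ℝ, 0 < t → t ≤ κ * τ → Few N δ₀ t (κ * (τ / t) ^ (2 * s)) → EvBound τ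

/-- **Bounded multiplicity of the triples with `T ≥ t` bounds `T`.** -/
theorem result (N : ℕ) (hN : 1 ≤ N) (δ₀ : ℝ) (hδ₀ : 0 < δ₀) :
    (∀ (s : ℝ) (M : ℕ), 0 < s → 1 < ∑ m ∈ Finset.Icc 3 M, ((m : ℝ) - 2) * (m : ℝ) ^ (-s) →
      Statement s N δ₀) ∧
    Statement (12 / 5) N δ₀ ∧
    ((∃ τ : ℝ, EvBound τ) ↔ ∃ t B : ℝ, Few N δ₀ t B) :=
  ⟨fun s M hs0 hs => ⟨main_bound s hs0 M hs N hN δ₀ hδ₀, criterion s hs0 M hs N hN δ₀ hδ₀⟩,
    ⟨main_bound (12 / 5) (by norm_num) 160 num N hN δ₀ hδ₀,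
      criterion (12 / 5) (by norm_num) 160 num N hN δ₀ hδ₀⟩,
    bounded_iff N hN δ₀ hδ₀⟩

end Pool.Agent.Results.MP_4ab349_nt.BoundedMultiplicity
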