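import Pool.Agent.H583.SB.I

/-!
# Linked abc triples ordered by conductors: almost all are typical if and only if the arrangement is stable

Let `L₁, …, L_n` be integral linear forms in `r ≥ 2` variables, no two of them proportional. Each linear
relation `a L_i + b L_j + c L_l = 0` gives, at an integral point `x` where no form vanishes, an abc
triple: the integers `a L_i (x)`, `b L_j (x)`, `c L_l (x)` divided by their common factor. So a primitive
point is a system of linked abc triples. Let `w_i > 0` be weights, `Ω = ∑ w_i`, and let us order the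
points, of whatever height, by the conductor `∏ rad (L_i (x)) ^ w_i`.

The arrangement is assumed to be generated: it is irreducible and a set of the forms which spans is
everything as soon as it contains each form dependent on two of its elements (three and more forms in two
variables, the differences of `m` integers, the type `B`, the irreducible supersolvable arrangements).

There are at least `c X ^ (r / Ω)` points with conductor at most `X`, by their heights. We show that the
following conditions are equivalent.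

* The weighted arrangement is stable: `dim W / r < w (W) / Ω` for all the subspaces `W`, not zero and not
  everything, where `w (W)` is the sum of the weights of the forms which do not vanish on `W`. (In the
  language of geometric invariant theory the point `(L₁, …, L_n)` of `(ℙ ^ (r - 1)) ^ n` with the
  polarization `w` is stable.)
* Up to `O (X ^ (r / Ω - δ))` exceptions the points with conductor at most `X` are typical: the height is
  at most `X ^ (1 / Ω + κ)`, the radical of the product of the values of all `n` forms is at least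
  `X ^ (n / Ω - κ)`, the members of all the abc triples have radicals at least `X ^ (1 / Ω - κ)`, and
  `c < rad (a b c) ^ (1 / 3 + κ)` for all the abc triples.

So for stable arrangements the truncated counting function of almost all points, ordered by conductors, is
at least `n - κ'` times the height: the values of the forms are almost squarefree and almost coprime.
In particular almost all points satisfy the inequality
`rad (a b c) > c ^ (1 - 1 / √(log c))` for all their triples.

Proof. Let `u_i` be the logarithms of the radicals. Stability gives (greedy algorithm for matroids, for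
perturbed weights) that the points in a dyadic box are few if the `u_i` are not almost equal: the
radicals of a spanning set of the forms leave `O (X ^ ε)` possibilities for the point. If they are almost
equal, one considers the ratio of two related forms: the number of ratios with a triple which violates
the last inequality, or with small radicals, is bounded by the theorems of the starting library on abc
triples of all heights; the ratio and `r - 1` radicals leave few possibilities. The bound for the height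
uses that the relations link all forms; then the points for which two values have a large common divisor
are counted directly. If the arrangement is not stable, the points `x₀ + M w`, where
`w` is an integral point of `W`, are too many points with a bounded radical.
-/

set_option autoImplicit false

namespace Pool.Agent.Results.MP_4ab349_nt.StableArrangements

open Finset Pool.Agent.H583.SA Pool.Agent.H583.SB Pool.Agent.H583.SF

variable {n r : ℕ}

/-- the radical: the product of the primes which divide the integer -/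
def radical (v : ℤ) : ℕ := ∏ p ∈ v.natAbs.primeFactors, p

/-- generated arrangements: no two of the linear forms `L_i (x) = ∑ L i k * x k` are proportional; they
have no common zero; the space is not a direct sum of two nonzero subspaces such that each form vanishes
on one of them; a set of the forms without common zero which contains with two forms each form related to
them (by a linear relation with three nonzero coefficients) is the set of all forms -/
structure Generated (L : Fin n → Fin r → ℤ) : Prop where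
  nonzero : ∀ i, ∃ k, L i k ≠ 0
  simple : ∀ i j, i ≠ j → ∀ p q : ℤ, (∀ k, p * L i k = q * L j k) → p = 0 ∧ q = 0
  essential : ∀ x : Fin r → ℚ, (∀ i, ∑ k, (L i k : ℚ) * x k = 0) → x = 0
  irreducible : ∀ U V : Submodule ℚ (Fin r → ℚ), IsCompl U V →
    (∀ i, (∀ x ∈ U, ∑ k, (L i k : ℚ) * x k = 0) ∨ (∀ x ∈ V, ∑ k, (L i k : ℚ) * x k = 0)) →
    U = ⊥ ∨ V = ⊥
  generated : ∀ S : Set (Fin n), (∀ i j l, (∃ a b c : ℤ, a ≠ 0 ∧ b ≠ 0 ∧ c ≠ 0 ∧
      ∀ k, a * L i k + b * L j k + c * L l k = 0) → i ∈ S → j ∈ S → l ∈ S) →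
    (∀ x : Fin r → ℚ, (∀ i ∈ S, ∑ k, (L i k : ℚ) * x k = 0) → x = 0) → S = Set.univ

open Classical in
/-- stability: `dim W * ∑ w_i < r * ∑ w_i`, the sum on the right over the forms which do not vanish on
`W`, for all subspaces `W` except zero and the whole space -/
def Stable (L : Fin n → Fin r → ℤ) (w : Fin n → ℝ) : Prop :=
  ∀ W : Submodule ℚ (Fin r → ℚ), W ≠ ⊥ → W ≠ ⊤ →
    (Module.finrank ℚ W : ℝ) * ∑ i, w i <
      r * ∑ i, if ∃ v ∈ W, ∑ k, (L i k : ℚ) * v k ≠ 0 then w i else 0

/-- the primitive integral points where no form vanishes with `∏ rad (L_i (x)) ^ w_i ≤ X` -/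
def Points (L : Fin n → Fin r → ℤ) (w : Fin n → ℝ) (X : ℝ) : Set (Fin r → ℤ) :=
  {x | Finset.univ.gcd x = 1 ∧ (∀ i, ∑ k, L i k * x k ≠ 0) ∧
    ∏ i, (radical (∑ k, L i k * x k) : ℝ) ^ w i ≤ X}

/-- the abc triples of a point: `a L_i (x)`, `b L_j (x)`, `c L_l (x)` divided by a common factor `g` such
that `A` and `B` are coprime, for a relation `a L_i + b L_j + c L_l = 0` with nonzero coefficients -/
def TripleOf (L : Fin n → Fin r → ℤ) (x : Fin r → ℤ) (A B C : ℤ) : Prop :=
  ∃ (i j l : Fin n) (a b c g : ℤ), i ≠ j ∧ a ≠ 0 ∧ b ≠ 0 ∧ c ≠ 0 ∧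
    (∀ k, a * L i k + b * L j k + c * L l k = 0) ∧ IsCoprime A B ∧
    a * ∑ k, L i k * x k = g * A ∧ b * ∑ k, L j k * x k = g * B ∧ c * ∑ k, L l k * x k = g * C

/-- the largest absolute value of the members of a triple -/
def largest (A B C : ℤ) : ℕ := max (max A.natAbs B.natAbs) C.natAbs

/-- typical points: the height is at most `X ^ (t + κ)`, the radical of the product of the values of all
forms is at least `X ^ (n t - κ)`, the members of all the abc triples have radicals at least
`X ^ (t - κ)`, and `c < rad (a b c) ^ (1 / 3 + κ)` for all the abc triples, `c` the largest member -/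
def Typical (L : Fin n → Fin r → ℤ) (t κ X : ℝ) (x : Fin r → ℤ) : Prop :=
  ‖x‖ ≤ X ^ (t + κ) ∧ X ^ (n * t - κ) ≤ radical (∏ i, ∑ k, L i k * x k) ∧
  ∀ A B C : ℤ, TripleOf L x A B C →
    (X ^ (t - κ) ≤ radical A ∧ X ^ (t - κ) ≤ radical B ∧ X ^ (t - κ) ≤ radical C) ∧
    (largest A B C : ℝ) < (radical (A * B * C) : ℝ) ^ (1 / 3 + κ)

/-- the inequality of the question is violated by an abc triple of the point -/
def Violated (L : Fin n → Fin r → ℤ) (x : Fin r → ℤ) : Prop :=
  ∃ A B C : ℤ, TripleOf L x A B C ∧ (radical (A * B * C) : ℝ) ≤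
    (largest A B C : ℝ) ^ (1 - 1 / Real.sqrt (Real.log (largest A B C)))

theorem Generated.ar {L : Fin n → Fin r → ℤ} (h : Generated L) : Ar L :=
  ⟨h.nonzero, h.essential, h.irreducible, fun S hS hsp i => by
    have h1 := h.generated {i | S i} (fun i j l hd hi hj => hS i j l hd hi hj) hsp
    have h2 : i ∈ ({i | S i} : Set (Fin n)) := by
      rw [h1]
      exact Set.mem_univ i
    exact h2⟩

theorem stable_iff (L : Fin n → Fin r → ℤ) (w : Fin n → ℝ) : Stable L w ↔ Stb L w := by
  classical
  have e : ∀ W : Submodule ℚ (Fin r → ℚ), ∑ i ∈ crs L W, w i =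
      ∑ i, if ∃ v ∈ W, ∑ k, (L i k : ℚ) * v k ≠ 0 then w i else 0 := by
    intro W
    rw [← Finset.sum_filter]
    apply Finset.sum_congr _ fun _ _ => rfl
    ext i
    rw [mem_crs, mem_filter]
    exact ⟨fun h => ⟨mem_univ i, h⟩, fun h => h.2⟩
  unfold Stable Stb
  constructor
  · intro h W h1 h2
    rw [e W]
    convert h W h1 h2
  · intro h W h1 h2
    have h3 := h W h1 h2
    rw [e W] at h3
    convert h3

theorem points_iff (L : Fin n → Fin r → ℤ) (w : Fin n → ℝ) (X : ℝ) (x : Fin r → ℤ) :
    x ∈ Points L w X ↔ Pt L x ∧ wp L w x ≤ X :=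
  ⟨fun h => ⟨⟨h.1, h.2.1⟩, h.2.2⟩, fun h => ⟨h.1.gcd, h.1.ne, h.2⟩⟩

theorem typical_iff (L : Fin n → Fin r → ℤ) (t κ X : ℝ) (x : Fin r → ℤ) :
    Typical L t κ X x ↔ Typ2 L t κ X x :=
  ⟨fun h => ⟨⟨h.1, h.2.2⟩, h.2.1⟩, fun h => ⟨h.1.1, h.2, h.1.2⟩⟩

theorem finite_points {L : Fin n → Fin r → ℤ} (hL : Ar L) (i₀ : Fin n) {w : Fin n → ℝ}
    (hw : ∀ i, 0 < w i) (X : ℝ) : (Points L w X).Finite := by
  obtain ⟨σ, C, h⟩ := fnt hL i₀ w hw
  have h1 : (Points L w (max X 1)).Finite :=
    (Pool.Agent.Results.MP_2ec8a3_nt.LinkedTriples.of_bound (B := C * (max X 1) ^ σ) fun Q hQ =>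
      h (max X 1) (le_max_right _ _) Q fun x hx => (points_iff L w _ x).1 (hQ x hx)).1
  refine h1.subset ?_
  intro x hx
  rw [points_iff] at hx ⊢
  exact ⟨hx.1, hx.2.trans (le_max_left _ _)⟩

theorem card_le {L : Fin n → Fin r → ℤ} (hL : Ar L) (i₀ : Fin n) {w : Fin n → ℝ}
    (hw : ∀ i, 0 < w i) (X : ℝ) (p : (Fin r → ℤ) → Prop) (Q : Finset (Fin r → ℤ))
    (hQ : ∀ x ∈ Q, x ∈ Points L w X ∧ p x) : Q.card ≤ {x ∈ Points L w X | p x}.ncard := by
  have h1 : {x ∈ Points L w X | p x}.Finite := (finite_points hL i₀ hw X).subset fun x hx => hx.1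
  rw [← Set.ncard_coe_finset Q]
  exact Set.ncard_le_ncard (fun x hx => hQ x (Finset.mem_coe.1 hx)) h1

/-- a violated inequality is untypical -/
theorem not_typical {L : Fin n → Fin r → ℤ} {t X : ℝ} {x : Fin r → ℤ} (h : Violated L x) :
    ¬ Typical L t (1 / 3) X x := by
  rintro ⟨-, -, ht⟩
  obtain ⟨A, B, C, htri, hv⟩ := h
  obtain ⟨-, h2⟩ := ht A B C htri
  have hr1 : (1 : ℝ) ≤ radical (A * B * C) := by
    exact_mod_cast (zr_pos (A * B * C) : 0 < zr (A * B * C))
  have h3 : (radical (A * B * C) : ℝ) ^ ((1 : ℝ) / 3 + 1 / 3) ≤ radical (A * B * C) := by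
    calc (radical (A * B * C) : ℝ) ^ ((1 : ℝ) / 3 + 1 / 3) ≤ (radical (A * B * C) : ℝ) ^ (1 : ℝ) :=
          Real.rpow_le_rpow_of_exponent_le hr1 (by norm_num)
      _ = _ := Real.rpow_one _
  rcases Nat.eq_zero_or_pos (largest A B C) with h0 | h0
  · have hA : A = 0 := by
      have : A.natAbs ≤ largest A B C := (le_max_left _ _).trans (le_max_left _ _)
      rw [h0] at this
      exact Int.natAbs_eq_zero.1 (Nat.le_zero.1 this)
    have hB : B = 0 := by
      have : B.natAbs ≤ largest A B C := (le_max_right _ _).trans (le_max_left _ _)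
      rw [h0] at this
      exact Int.natAbs_eq_zero.1 (Nat.le_zero.1 this)
    obtain ⟨i, j, l, a, b, c, g, -, -, -, -, -, hco, -⟩ := htri
    rw [hA, hB] at hco
    exact not_isCoprime_zero_zero hco
  · have h4 : (1 : ℝ) ≤ largest A B C := by exact_mod_cast h0
    have h5 : (largest A B C : ℝ) ^ (1 - 1 / Real.sqrt (Real.log (largest A B C))) ≤
        largest A B C := by
      calc (largest A B C : ℝ) ^ (1 - 1 / Real.sqrt (Real.log (largest A B C))) ≤
            (largest A B C : ℝ) ^ (1 : ℝ) := by
            apply Real.rpow_le_rpow_of_exponent_le h4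
            have : 0 ≤ 1 / Real.sqrt (Real.log (largest A B C)) := by positivity
            linarith
        _ = _ := Real.rpow_one _
    linarith

/-- **Theorem.** Let the arrangement be generated and the weights positive, `Ω = ∑ w_i`. (1) The points
with `∏ rad (L_i (x)) ^ w_i ≤ X` are finite in number, at least `c X ^ (r / Ω)`. (2) The weighted
arrangement is stable if and only if for each `κ > 0` all of these points but `C X ^ (r / Ω - δ)` are
typical. (3) If it is stable, then all of them but `C X ^ (r / Ω - δ)` satisfy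
`rad (a b c) > c ^ (1 - 1 / √(log c))` for all their abc triples. -/
theorem result (n r : ℕ) (L : Fin n → Fin r → ℤ) (w : Fin n → ℝ) (hr : 2 ≤ r) (hL : Generated L)
    (hw : ∀ i, 0 < w i) :
    ((∀ X : ℝ, (Points L w X).Finite) ∧ ∃ c X₀ : ℝ, 0 < c ∧ ∀ X : ℝ, X₀ ≤ X →
      c * X ^ (r / ∑ i, w i) ≤ ((Points L w X).ncard : ℝ)) ∧
    (Stable L w ↔ ∀ κ : ℝ, 0 < κ → ∃ δ C : ℝ, 0 < δ ∧ ∀ X : ℝ, 1 ≤ X →
      ({x ∈ Points L w X | ¬ Typical L (1 / ∑ i, w i) κ X x}.ncard : ℝ) ≤
        C * X ^ (r / (∑ i, w i) - δ)) ∧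
    (Stable L w → ∃ δ C : ℝ, 0 < δ ∧ ∀ X : ℝ, 1 ≤ X →
      ({x ∈ Points L w X | Violated L x}.ncard : ℝ) ≤ C * X ^ (r / (∑ i, w i) - δ)) := by
  have hA := hL.ar
  obtain ⟨i₀⟩ : Nonempty (Fin n) := by
    by_contra hcon
    rw [not_nonempty_iff] at hcon
    have h1 := hL.essential (fun _ => 1) (fun i => (hcon.false i).elim)
    have h2 := congrFun h1 ⟨0, by omega⟩
    exact one_ne_zero h2
  have hup : Stable L w → ∀ κ : ℝ, 0 < κ → ∃ δ C : ℝ, 0 < δ ∧ ∀ X : ℝ, 1 ≤ X →
      ∀ Q : Finset (Fin r → ℤ), (∀ x ∈ Q, x ∈ Points L w X ∧ ¬ Typical L (1 / ∑ i, w i) κ X x) →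
        (Q.card : ℝ) ≤ C * X ^ (r / (∑ i, w i) - δ) := by
    intro hst κ hκ
    obtain ⟨δ, C, hδ, -, h⟩ := fwd2 hA i₀ w hw ((stable_iff L w).1 hst) hr
      (fun i j hij => hL.simple i j hij) κ hκ
    refine ⟨δ, C, hδ, fun X hX Q hQ => h X hX Q fun x hx => ?_⟩
    obtain ⟨h1, h2⟩ := hQ x hx
    rw [points_iff] at h1
    rw [typical_iff] at h2
    exact ⟨h1.1, h1.2, h2⟩
  refine ⟨⟨finite_points hA i₀ hw, ?_⟩, ⟨?_, ?_⟩, ?_⟩
  · obtain ⟨c, X₀, hc, -, h⟩ := low hA.ne i₀ w hw hr
    refine ⟨c, X₀, hc, fun X hX => ?_⟩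
    obtain ⟨S, hS1, hS2⟩ := h X hX
    refine hS1.trans ?_
    rw [← Set.ncard_coe_finset S]
    exact_mod_cast Set.ncard_le_ncard (fun x hx => (points_iff L w X x).2
      (hS2 x (Finset.mem_coe.1 hx))) (finite_points hA i₀ hw X)
  · intro hst κ hκ
    obtain ⟨δ, C, hδ, h⟩ := hup hst κ hκ
    exact ⟨δ, C, hδ, fun X hX =>
      (Pool.Agent.Results.MP_2ec8a3_nt.LinkedTriples.of_bound fun Q hQ => h X hX Q hQ).2⟩
  · intro H
    rw [stable_iff]
    refine bwd hA i₀ w hw hr fun κ hκ => ?_
    obtain ⟨δ, C, hδ, h⟩ := H κ hκ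
    refine ⟨δ, C, hδ, fun X hX Q hQ => ?_⟩
    refine le_trans ?_ (h X hX)
    exact_mod_cast card_le hA i₀ hw X (fun x => ¬ Typical L (1 / ∑ i, w i) κ X x) Q fun x hx =>
      ⟨(points_iff L w X x).2 ⟨(hQ x hx).1, (hQ x hx).2.1⟩, fun h1 =>
        (hQ x hx).2.2 ((typical_iff L _ κ X x).1 h1).1⟩
  · intro hst
    obtain ⟨δ, C, hδ, h⟩ := hup hst (1 / 3) (by norm_num)
    exact ⟨δ, C, hδ, fun X hX =>
      (Pool.Agent.Results.MP_2ec8a3_nt.LinkedTriples.of_bound fun Q hQ => h X hX Q fun x hx =>
        ⟨(hQ x hx).1, not_typical (hQ x hx).2⟩).2⟩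

end Pool.Agent.Results.MP_4ab349_nt.StableArrangements
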